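import Pool.Agent.H548R3.PConstr

/-!
The Lipschitz free `p`-space over a dense subspace `M` of `N` is the Lipschitz free `p`-space over `N`.
-/

set_option autoImplicit false

open Set Filter Topology
open Pool.Agent.H548R3.PFree

namespace Pool.Agent.H5S_Disc

variable {p : ℝ}

lemma norm_sub_le_of_pnorm {X : Type} [NormedAddCommGroup X] (h0 : 0 < p) (a b : X) {B : ℝ}
    (h : pnorm p (a - b) ≤ B) : ‖a - b‖ ≤ B ^ p := by
  have h1 : pnorm p (a - b) ^ p = ‖a - b‖ := by
    unfold pnorm
    rw [← Real.rpow_mul (norm_nonneg _), one_div_mul_cancel h0.ne', Real.rpow_one]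
  rw [← h1]
  exact Real.rpow_le_rpow (Real.rpow_nonneg (norm_nonneg _) _) h h0.le

/-- a map which is Lipschitz in the `p`-norm is continuous -/
lemma uc_of_lip {N X : Type} [MetricSpace N] [NormedAddCommGroup X] (h0 : 0 < p) (f : N → X)
    (L : ℝ) (hL : ∀ x y, pnorm p (f x - f y) ≤ L * dist x y) : UniformContinuous f := by
  have h1 : ∀ x y, ‖f x - f y‖ ≤ ((|L| + 1) * dist x y) ^ p := fun x y =>
    norm_sub_le_of_pnorm h0 _ _ ((hL x y).trans (mul_le_mul_of_nonneg_right
      ((le_abs_self L).trans (by linarith)) dist_nonneg))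
  rw [Metric.uniformContinuous_iff]
  intro ε hε
  have hL0 : 0 < |L| + 1 := by positivity
  refine ⟨ε ^ (1 / p) / (|L| + 1), by positivity, fun {x y} hxy => ?_⟩
  rw [dist_eq_norm]
  refine (h1 x y).trans_lt ?_
  have h2 : (|L| + 1) * dist x y < ε ^ (1 / p) := by
    rw [lt_div_iff₀ hL0] at hxy
    linarith [hxy, mul_comm (dist x y) (|L| + 1)]
  have h3 : ((|L| + 1) * dist x y) ^ p < (ε ^ (1 / p)) ^ p :=
    Real.rpow_lt_rpow (by positivity) h2 h0
  rwa [← Real.rpow_mul hε.le, one_div_mul_cancel h0.ne', Real.rpow_one] at h3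

lemma continuous_pnorm {X : Type} [NormedAddCommGroup X] (h0 : 0 < p) :
    Continuous (fun z : X => pnorm p z) := by
  unfold pnorm
  exact continuous_norm.rpow_const fun z => Or.inr (by positivity)

/-- **Free spaces over dense subspaces.** -/
theorem exists_ext {M N : Type} [MetricSpace M] [MetricSpace N] (h0 : 0 < p) (i : M → N)
    (hi : Isometry i) (hd : DenseRange i) (o : M) (Z : Type) [NormedAddCommGroup Z] [Module ℝ Z]
    (δ : M → Z) (h : IsLipschitzFree p M o Z δ) :
    ∃ δ' : N → Z, IsLipschitzFree p N (i o) Z δ' ∧ ∀ x, δ' (i x) = δ x := by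
  have hZ : CompleteSpace Z := h.banach.2
  have hδ : UniformContinuous δ := uc_of_lip h0 δ 1 fun x y => by rw [h.isometric, one_mul]
  have hui : IsUniformInducing i := hi.isUniformInducing
  have hdi : IsDenseInducing i := hui.isDenseInducing hd
  set δ' : N → Z := hdi.extend δ with hδ'
  have hc : Continuous δ' := (uniformContinuous_uniformly_extend hui hd hδ).continuous
  have he : ∀ x, δ' (i x) = δ x := fun x => hdi.extend_eq hδ.continuous x
  have hp2 : Dense (range (Prod.map i i)) := (hd.prodMap hd)
  refine ⟨δ', ⟨h.banach, ?_, ?_, ?_, ?_⟩, he⟩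
  · rw [he, h.base]
  · intro x y
    have h1 : (fun q : N × N => pnorm p (δ' q.1 - δ' q.2)) = fun q : N × N => dist q.1 q.2 := by
      refine Continuous.ext_on hp2 ((continuous_pnorm h0).comp
        ((hc.comp continuous_fst).sub (hc.comp continuous_snd))) continuous_dist ?_
      rintro _ ⟨⟨a, b⟩, rfl⟩
      show pnorm p (δ' (i a) - δ' (i b)) = dist (i a) (i b)
      rw [he, he, h.isometric, hi.dist_eq]
    exact congrFun h1 (x, y)
  · refine h.dense.mono ?_
    refine Submodule.span_mono ?_
    rintro _ ⟨x, rfl⟩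
    exact ⟨i x, he x⟩
  · intro X _ _ hX f hf ⟨L, hL⟩
    obtain ⟨T, hT1, hT2, hT3⟩ := h.lift X hX (fun x => f (i x)) hf
      ⟨L, fun x y => by rw [← hi.dist_eq]; exact hL _ _⟩
    have hfc : Continuous f := (uc_of_lip h0 f L hL).continuous
    have hTf : ∀ y, T (δ' y) = f y := by
      have h1 : (fun y => T (δ' y)) = f := by
        refine Continuous.ext_on hd (T.continuous.comp hc) hfc ?_
        rintro _ ⟨a, rfl⟩
        show T (δ' (i a)) = f (i a)
        rw [he, hT1]
      exact fun y => congrFun h1 y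
    refine ⟨T, hTf, fun K hK => ?_, fun T' hT' => ?_⟩
    · rw [← hT2 K hK]
      constructor
      · intro hK2 x y
        rw [← hi.dist_eq]
        exact hK2 _ _
      · intro hK2 x y
        have hcl : IsClosed {q : N × N | pnorm p (f q.1 - f q.2) ≤ K * dist q.1 q.2} :=
          isClosed_le ((continuous_pnorm h0).comp
            ((hfc.comp continuous_fst).sub (hfc.comp continuous_snd)))
            (continuous_const.mul continuous_dist)
        have h2 : closure (range (Prod.map i i)) ⊆
            {q : N × N | pnorm p (f q.1 - f q.2) ≤ K * dist q.1 q.2} := by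
          refine closure_minimal ?_ hcl
          rintro _ ⟨⟨a, b⟩, rfl⟩
          show pnorm p (f (i a) - f (i b)) ≤ K * dist (i a) (i b)
          rw [hi.dist_eq]
          exact hK2 a b
        rw [hp2.closure_eq] at h2
        exact h2 (mem_univ (x, y))
    · refine hT3 T' fun x => ?_
      rw [← he x, hT']

end Pool.Agent.H5S_Disc
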